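import Pool.Agent.FTU.Stmts

/-!
# Squad FTU (MP_8cfbae_mp), row FLP: pointwise bound of the field energy density
-/

set_option autoImplicit false

open MeasureTheory Complex ProbabilityTheory

noncomputable section

namespace Pool.Agent.FTU.H66F

open Pool.Agent.Helper49_Pauli Pool.Agent.MBX Pool.Agent.FTU

/-- the derivative of the phase in a field coordinate -/
def tht {ι : Type} [Fintype ι] (S : Sys ι) (et : ℝ) (eps : RR) (y : ι → ℝ) (z : ℝ) (i : ι) : ℝ :=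
  ∫ s in (0 : ℝ)..z, ∑ v ∈ eps.vars,
    S.jv i v s * (ev et (S.jt et y s) 0 (MvPolynomial.pderiv v eps)).re

/-- the derivative of `pol` in a field coordinate -/
def dpl {ι : Type} [Fintype ι] (S : Sys ι) (et : ℝ) (P : RR) (y : ι → ℝ) (x : X3) (i : ι) : ℂ :=
  ∑ v ∈ P.vars, (S.jv i v (x 2) : ℂ) * S.pol et (MvPolynomial.pderiv v P) y x

theorem comp (evy : EvyStmt) (evt : EvtStmt) {ι : Type} [Fintype ι] [DecidableEq ι] (S : Sys ι)
    (et A : ℝ) (eps P : RR) (y : ι → ℝ) (x : X3) (i : ι) :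
    HasDerivAt (fun t : ℝ =>
      (cexp (-(I * (S.Th et eps (Function.update y i t) (x 2) : ℂ))) * ((A : ℝ) : ℂ)) *
        S.pol et P (Function.update y i t) x)
      ((cexp (-(I * (S.Th et eps y (x 2) : ℂ))) * ((A : ℝ) : ℂ)) *
        (dpl S et P y x i - I * (tht S et eps y (x 2) i : ℂ) * S.pol et P y x)) (y i) := by
  have e : Function.update y i (y i) = y := Function.update_eq_self i y
  have hT := ((evt ι S et eps y).2.2 (x 2) i).ofReal_comp
  have hN : HasDerivAt (fun t : ℝ => -(I * (S.Th et eps (Function.update y i t) (x 2) : ℂ)))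
      (-(I * (tht S et eps y (x 2) i : ℂ))) (y i) := (hT.const_mul I).neg
  have hE : HasDerivAt
      (fun t : ℝ => cexp (-(I * (S.Th et eps (Function.update y i t) (x 2) : ℂ))))
      (cexp (-(I * (S.Th et eps y (x 2) : ℂ))) * (-(I * (tht S et eps y (x 2) i : ℂ)))) (y i) := by
    have h := hN.cexp
    simp only [e] at h
    exact h
  have hP : HasDerivAt (fun t : ℝ => S.pol et P (Function.update y i t) x)
      (dpl S et P y x i) (y i) := evy ι S et P y i (x 2) (zt et x)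
  have hm := (hE.mul_const ((A : ℝ) : ℂ)).mul hP
  simp only [e] at hm
  refine hm.congr_deriv ?_
  ring

theorem nrm (r : ℝ) : ‖cexp (-(I * (r : ℂ)))‖ = 1 := by
  have h : -(I * (r : ℂ)) = ((-r : ℝ) : ℂ) * I := by push_cast; ring
  rw [h, Complex.norm_exp_ofReal_mul_I]

theorem est (r A th : ℝ) (d p : ℂ) :
    ‖(cexp (-(I * (r : ℂ))) * ((A : ℝ) : ℂ)) * (d - I * (th : ℂ) * p)‖ ^ 2 ≤
      2 * A ^ 2 * (‖d‖ ^ 2 + th ^ 2 * ‖p‖ ^ 2) := by
  have h1 : ‖(cexp (-(I * (r : ℂ))) * ((A : ℝ) : ℂ)) * (d - I * (th : ℂ) * p)‖ ^ 2 =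
      A ^ 2 * ‖d - I * (th : ℂ) * p‖ ^ 2 := by
    rw [norm_mul, norm_mul, nrm, one_mul, mul_pow, Complex.norm_real, Real.norm_eq_abs, sq_abs]
  have h2 : ‖d - I * (th : ℂ) * p‖ ≤ ‖d‖ + |th| * ‖p‖ := by
    refine (norm_sub_le _ _).trans ?_
    rw [norm_mul, norm_mul, Complex.norm_I, one_mul, Complex.norm_real, Real.norm_eq_abs]
  have h3 : ‖d - I * (th : ℂ) * p‖ ^ 2 ≤ 2 * (‖d‖ ^ 2 + th ^ 2 * ‖p‖ ^ 2) := by
    have h4 : ‖d - I * (th : ℂ) * p‖ ^ 2 ≤ (‖d‖ + |th| * ‖p‖) ^ 2 :=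
      pow_le_pow_left₀ (norm_nonneg _) h2 2
    have h5 : (|th| * ‖p‖) ^ 2 = th ^ 2 * ‖p‖ ^ 2 := by rw [mul_pow, sq_abs]
    nlinarith [sq_nonneg (‖d‖ - |th| * ‖p‖)]
  rw [h1]
  calc A ^ 2 * ‖d - I * (th : ℂ) * p‖ ^ 2 ≤ A ^ 2 * (2 * (‖d‖ ^ 2 + th ^ 2 * ‖p‖ ^ 2)) :=
        mul_le_mul_of_nonneg_left h3 (sq_nonneg A)
    _ = _ := by ring

/-- the pointwise bound for one coordinate -/
theorem one (evy : EvyStmt) (evt : EvtStmt) {ι : Type} [Fintype ι] [DecidableEq ι] (S : Sys ι)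
    (et : ℝ) (eps u f : RR) (ch : X3 → ℝ) (y : ι → ℝ) (x : X3) (i : ι) :
    nsq (dY2 i (S.tri et eps u f ch) y x) ≤ 2 * (ch x * gs et x) ^ 2 *
      (‖dpl S et u y x i‖ ^ 2 + ‖dpl S et f y x i‖ ^ 2 +
        tht S et eps y (x 2) i ^ 2 * (‖S.pol et u y x‖ ^ 2 + ‖S.pol et f y x‖ ^ 2)) := by
  have h0 : dY2 i (S.tri et eps u f ch) y x 0 =
      (cexp (-(I * (S.Th et eps y (x 2) : ℂ))) * ((ch x * gs et x : ℝ) : ℂ)) *
        (dpl S et u y x i - I * (tht S et eps y (x 2) i : ℂ) * S.pol et u y x) :=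
    (comp evy evt S et (ch x * gs et x) eps u y x i).deriv
  have h1 : dY2 i (S.tri et eps u f ch) y x 1 =
      (cexp (-(I * (S.Th et eps y (x 2) : ℂ))) * ((ch x * gs et x : ℝ) : ℂ)) *
        (dpl S et f y x i - I * (tht S et eps y (x 2) i : ℂ) * S.pol et f y x) :=
    (comp evy evt S et (ch x * gs et x) eps f y x i).deriv
  unfold nsq
  rw [Fin.sum_univ_two, h0, h1]
  have e0 := est (S.Th et eps y (x 2)) (ch x * gs et x) (tht S et eps y (x 2) i)
    (dpl S et u y x i) (S.pol et u y x)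
  have e1 := est (S.Th et eps y (x 2)) (ch x * gs et x) (tht S et eps y (x 2) i)
    (dpl S et f y x i) (S.pol et f y x)
  refine (add_le_add e0 e1).trans (le_of_eq ?_)
  ring

/-- **FLP** -/
theorem flp (evy : EvyStmt) (evt : EvtStmt) (bsu : BsuStmt) : FlpStmt := by
  intro bp CB hb eps u f ι _ _ S K ell et l y x hG het hl hle
  have hl0 : 0 < l := by linarith
  have hw : ∀ i, 0 ≤ S.w i := fun i => (hG.w0 i).le
  by_cases hx : ∀ j, |x j| ≤ l
  · have hcube : cube l x = 1 := if_pos hx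
    have hch : (sc bp l x * gs et x) ^ 2 ≤ gs et x ^ 2 := by
      rw [mul_pow]
      have h1 : sc bp l x ^ 2 ≤ 1 := by
        unfold sc
        have h2 := hb.nonneg (l⁻¹ • x)
        have h3 := hb.le_one (l⁻¹ • x)
        exact pow_le_one₀ h2 h3
      exact mul_le_of_le_one_left (sq_nonneg _) h1
    have hth : ∑ i, S.w i * tht S et eps y (x 2) i ^ 2 ≤ (eps.vars.card : ℝ) * K *
        ∑ v ∈ eps.vars, |∫ s in (0 : ℝ)..(x 2),
          (ev et (S.jt et y s) 0 (MvPolynomial.pderiv v eps)).re ^ 2| :=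
      (bsu ι S K ell hG eps.vars).1
        (fun v s => (ev et (S.jt et y s) 0 (MvPolynomial.pderiv v eps)).re) (x 2)
        (fun v => (evt ι S et eps y).1 (MvPolynomial.pderiv v eps)) ((hx 2).trans hle)
    have hp : ∀ P : RR, ∑ i, S.w i * ‖dpl S et P y x i‖ ^ 2 ≤ (P.vars.card : ℝ) * K *
        ∑ v ∈ P.vars, ‖S.pol et (MvPolynomial.pderiv v P) y x‖ ^ 2 := fun P =>
      (bsu ι S K ell hG P.vars).2 (fun v => S.pol et (MvPolynomial.pderiv v P) y x) (x 2)
    have hu := hp u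
    have hf := hp f
    obtain ⟨Q, hQ⟩ : ∃ Q : ℝ, Q = ‖S.pol et u y x‖ ^ 2 + ‖S.pol et f y x‖ ^ 2 := ⟨_, rfl⟩
    have hQ0 : 0 ≤ Q := by rw [hQ]; positivity
    have hsum : ∑ i, S.w i * nsq (dY2 i (S.tri et eps u f (sc bp l)) y x) ≤
        2 * (sc bp l x * gs et x) ^ 2 * (∑ i, S.w i * ‖dpl S et u y x i‖ ^ 2 +
          ∑ i, S.w i * ‖dpl S et f y x i‖ ^ 2 +
          (∑ i, S.w i * tht S et eps y (x 2) i ^ 2) * Q) := by
      calc ∑ i, S.w i * nsq (dY2 i (S.tri et eps u f (sc bp l)) y x)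
          ≤ ∑ i, S.w i * (2 * (sc bp l x * gs et x) ^ 2 *
            (‖dpl S et u y x i‖ ^ 2 + ‖dpl S et f y x i‖ ^ 2 +
              tht S et eps y (x 2) i ^ 2 * Q)) :=
            Finset.sum_le_sum fun i _ => mul_le_mul_of_nonneg_left
              (by rw [hQ]; exact one evy evt S et eps u f (sc bp l) y x i) (hw i)
        _ = _ := by
            rw [← Finset.sum_add_distrib, Finset.sum_mul, ← Finset.sum_add_distrib,
              Finset.mul_sum]
            exact Finset.sum_congr rfl fun i _ => by ring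
    have hU0 : 0 ≤ ∑ i, S.w i * ‖dpl S et u y x i‖ ^ 2 :=
      Finset.sum_nonneg fun i _ => mul_nonneg (hw i) (sq_nonneg _)
    have hF0 : 0 ≤ ∑ i, S.w i * ‖dpl S et f y x i‖ ^ 2 :=
      Finset.sum_nonneg fun i _ => mul_nonneg (hw i) (sq_nonneg _)
    have hT0 : 0 ≤ ∑ i, S.w i * tht S et eps y (x 2) i ^ 2 :=
      Finset.sum_nonneg fun i _ => mul_nonneg (hw i) (sq_nonneg _)
    refine hsum.trans ?_
    rw [hcube, one_mul, ← hQ]
    have h1 : 2 * (sc bp l x * gs et x) ^ 2 * (∑ i, S.w i * ‖dpl S et u y x i‖ ^ 2 +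
          ∑ i, S.w i * ‖dpl S et f y x i‖ ^ 2 +
          (∑ i, S.w i * tht S et eps y (x 2) i ^ 2) * Q) ≤
        2 * gs et x ^ 2 * (∑ i, S.w i * ‖dpl S et u y x i‖ ^ 2 +
          ∑ i, S.w i * ‖dpl S et f y x i‖ ^ 2 +
          (∑ i, S.w i * tht S et eps y (x 2) i ^ 2) * Q) :=
      mul_le_mul_of_nonneg_right (by linarith) (by positivity)
    refine h1.trans ?_
    have h2 := mul_le_mul_of_nonneg_right hth hQ0
    have h3 : 0 ≤ 2 * gs et x ^ 2 := by positivity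
    calc 2 * gs et x ^ 2 * (∑ i, S.w i * ‖dpl S et u y x i‖ ^ 2 +
          ∑ i, S.w i * ‖dpl S et f y x i‖ ^ 2 +
          (∑ i, S.w i * tht S et eps y (x 2) i ^ 2) * Q)
        ≤ 2 * gs et x ^ 2 * ((u.vars.card : ℝ) * K *
              (∑ v ∈ u.vars, ‖S.pol et (MvPolynomial.pderiv v u) y x‖ ^ 2) +
            (f.vars.card : ℝ) * K *
              (∑ v ∈ f.vars, ‖S.pol et (MvPolynomial.pderiv v f) y x‖ ^ 2) +
            (eps.vars.card : ℝ) * K * (∑ v ∈ eps.vars, |∫ s in (0 : ℝ)..(x 2),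
              (ev et (S.jt et y s) 0 (MvPolynomial.pderiv v eps)).re ^ 2|) * Q) :=
          mul_le_mul_of_nonneg_left (by linarith) h3
      _ = _ := by ring
  · have hcube : cube l x = 0 := if_neg hx
    have hch : sc bp l x = 0 := by
      unfold sc
      refine hb.zero _ ?_
      obtain ⟨j, hj⟩ := not_forall.1 hx
      refine ⟨j, ?_⟩
      rw [Pi.smul_apply, smul_eq_mul, abs_mul, abs_of_pos (inv_pos.2 hl0), inv_mul_eq_div,
        one_le_div hl0]
      exact (not_le.1 hj).le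
    have h1 : ∀ i, S.w i * nsq (dY2 i (S.tri et eps u f (sc bp l)) y x) ≤ 0 := by
      intro i
      have h2 := one evy evt S et eps u f (sc bp l) y x i
      rw [hch, zero_mul] at h2
      have h3 : nsq (dY2 i (S.tri et eps u f (sc bp l)) y x) ≤ 0 := by
        refine h2.trans (le_of_eq ?_)
        ring
      exact mul_nonpos_of_nonneg_of_nonpos (hw i) h3
    rw [hcube, zero_mul, mul_zero, zero_mul, zero_mul]
    exact Finset.sum_nonpos fun i _ => h1 i

end Pool.Agent.FTU.H66F
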