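import Pool.Agent.FTU.Stmts

/-!
# Squad FTU (MP_8cfbae_mp), row PSI: the vector potential is a trigonometric polynomial
-/

set_option autoImplicit false

open MeasureTheory Complex

noncomputable section

namespace Pool.Agent.FTU.H66

open Pool.Agent.Helper49_Pauli Pool.Agent.MBX Pool.Agent.FTU

/-- **PSI** -/
theorem psi (h : Pr3Stmt) : PsiStmt := by
  intro ell b g K B0 B2 B3 Bq p0 p2 p3 q hB0 hB2 hB3 hBq h0 h2 h3 hq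
  obtain ⟨gA, hA, hA'⟩ := h ell K B0 B3 Bq p0 p3 q hB0 hB3 hBq h0 h3 hq
  obtain ⟨gB, hB, hB'⟩ := h ell K B3 B0 Bq p3 p0 q hB3 hB0 hBq h3 h0 hq
  obtain ⟨gC, hC, hC'⟩ := h ell K B2 B0 Bq p2 p0 q hB2 hB0 hBq h2 h0 hq
  obtain ⟨gD, hD, hD'⟩ := h ell K B0 B2 Bq p0 p2 q hB0 hB2 hBq h0 h2 hq
  have lin : ∀ (r : ℝ) (G : (Fin 3 → ℤ) → ℂ) (E : (Fin 3 → ℤ) → ℂ) (v : ℝ)
      (s : Finset (Fin 3 → ℤ)), ((v : ℝ) : ℂ) = ∑ n ∈ s, G n * E n →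
      (∑ n ∈ s, ((r : ℝ) : ℂ) * G n * E n).re = r * v := by
    intro r G E v s hv
    have e : ∑ n ∈ s, ((r : ℝ) : ℂ) * G n * E n = ((r * v : ℝ) : ℂ) := by
      rw [Complex.ofReal_mul, hv, Finset.mul_sum]
      exact Finset.sum_congr rfl fun n _ => mul_assoc _ _ _
    rw [e, Complex.ofReal_re]
  refine ⟨fun n => ![((-(g / 6) : ℝ) : ℂ) * gA n, ((g / 6 : ℝ) : ℂ) * gB n,
    ((-(b / 4) : ℝ) : ℂ) * (gC n + gD n)], ?_, ?_⟩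
  · intro x j
    fin_cases j
    · exact lin (-(g / 6)) gA _ _ _ (hA x)
    · exact lin (g / 6) gB _ _ _ (hB x)
    · refine lin (-(b / 4)) (fun n => gC n + gD n) _ _ _ ?_
      rw [Complex.ofReal_add, hC x, hD x, ← Finset.sum_add_distrib]
      exact Finset.sum_congr rfl fun n _ => (add_mul _ _ _).symm
  · have nr : ∀ (r : ℝ) (z : ℂ), ‖((r : ℝ) : ℂ) * z‖ ^ 2 = r ^ 2 * ‖z‖ ^ 2 := by
      intro r z
      rw [norm_mul, mul_pow, Complex.norm_real, Real.norm_eq_abs, sq_abs]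
    have two : ∀ u v : ℂ, ‖u + v‖ ^ 2 ≤ 2 * ‖u‖ ^ 2 + 2 * ‖v‖ ^ 2 := by
      intro u v
      have h1 := norm_add_le u v
      have h2 : ‖u + v‖ ^ 2 ≤ (‖u‖ + ‖v‖) ^ 2 := pow_le_pow_left₀ (norm_nonneg _) h1 2
      nlinarith [sq_nonneg (‖u‖ - ‖v‖)]
    have hterm : ∀ n : Fin 3 → ℤ, ∑ j, ‖(![((-(g / 6) : ℝ) : ℂ) * gA n, ((g / 6 : ℝ) : ℂ) * gB n,
        ((-(b / 4) : ℝ) : ℂ) * (gC n + gD n)] : Fin 3 → ℂ) j‖ ^ 2 ≤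
        g ^ 2 / 36 * ‖gA n‖ ^ 2 + g ^ 2 / 36 * ‖gB n‖ ^ 2 +
          (b ^ 2 / 8 * ‖gC n‖ ^ 2 + b ^ 2 / 8 * ‖gD n‖ ^ 2) := by
      intro n
      rw [Fin.sum_univ_three]
      have e0 : ‖(![((-(g / 6) : ℝ) : ℂ) * gA n, ((g / 6 : ℝ) : ℂ) * gB n,
        ((-(b / 4) : ℝ) : ℂ) * (gC n + gD n)] : Fin 3 → ℂ) 0‖ ^ 2 = g ^ 2 / 36 * ‖gA n‖ ^ 2 := by
        change ‖((-(g / 6) : ℝ) : ℂ) * gA n‖ ^ 2 = _
        rw [nr]; ring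
      have e1 : ‖(![((-(g / 6) : ℝ) : ℂ) * gA n, ((g / 6 : ℝ) : ℂ) * gB n,
        ((-(b / 4) : ℝ) : ℂ) * (gC n + gD n)] : Fin 3 → ℂ) 1‖ ^ 2 = g ^ 2 / 36 * ‖gB n‖ ^ 2 := by
        change ‖((g / 6 : ℝ) : ℂ) * gB n‖ ^ 2 = _
        rw [nr]; ring
      have e2 : ‖(![((-(g / 6) : ℝ) : ℂ) * gA n, ((g / 6 : ℝ) : ℂ) * gB n,
        ((-(b / 4) : ℝ) : ℂ) * (gC n + gD n)] : Fin 3 → ℂ) 2‖ ^ 2
          = b ^ 2 / 16 * ‖gC n + gD n‖ ^ 2 := by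
        change ‖((-(b / 4) : ℝ) : ℂ) * (gC n + gD n)‖ ^ 2 = _
        rw [nr]; ring
      rw [e0, e1, e2]
      have h5 := mul_le_mul_of_nonneg_left (two (gC n) (gD n))
        (by positivity : (0 : ℝ) ≤ b ^ 2 / 16)
      nlinarith
    refine (Finset.sum_le_sum fun n _ => hterm n).trans ?_
    rw [Finset.sum_add_distrib, Finset.sum_add_distrib, Finset.sum_add_distrib,
      ← Finset.mul_sum, ← Finset.mul_sum, ← Finset.mul_sum, ← Finset.mul_sum]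
    have a1 := mul_le_mul_of_nonneg_left hA' (by positivity : (0 : ℝ) ≤ g ^ 2 / 36)
    have a2 := mul_le_mul_of_nonneg_left hB' (by positivity : (0 : ℝ) ≤ g ^ 2 / 36)
    have a3 := mul_le_mul_of_nonneg_left hC' (by positivity : (0 : ℝ) ≤ b ^ 2 / 8)
    have a4 := mul_le_mul_of_nonneg_left hD' (by positivity : (0 : ℝ) ≤ b ^ 2 / 8)
    have e : g ^ 2 / 18 * (B0 * B3 * Bq) + b ^ 2 / 4 * (B2 * B0 * Bq) =
        g ^ 2 / 36 * (B0 * B3 * Bq) + g ^ 2 / 36 * (B3 * B0 * Bq) +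
          (b ^ 2 / 8 * (B2 * B0 * Bq) + b ^ 2 / 8 * (B0 * B2 * Bq)) := by ring
    rw [e]
    linarith

end Pool.Agent.FTU.H66
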